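import Mathlib
import Pool.Agent.H499R2.NDClass2
import Pool.Agent.TH204.CP.Collatz4

set_option autoImplicit false

namespace Pool.Agent.Results.MP_d02c56_nt.SumsWithPrimes

open Filter Topology

/-- The Collatz map on the integers. -/
def C (x : ℤ) : ℤ := if x % 2 = 0 then x / 2 else 3 * x + 1

/-- `S` is invariant under the Collatz map and its inverse. -/
def Invariant (S : Set ℤ) : Prop := ∀ x : ℤ, x ∈ S ↔ C x ∈ S

/-- Among the integers of sign `s` the set `S` has natural density `δ`. -/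
def HasDensity (s : ℤ) (S : Set ℤ) (δ : ℝ) : Prop :=
  Tendsto (fun N : ℕ => ({n : ℤ | 0 < s * n ∧ s * n ≤ N ∧ n ∈ S}.ncard : ℝ) / N) atTop (𝓝 δ)

/-- The number of the representations `n = p + x`, `p` prime, `x ∈ S`, `x > 0`. -/
noncomputable def Rep (n : ℕ) (S : Set ℤ) : ℕ := {p : ℕ | p.Prime ∧ p < n ∧ (n - p : ℤ) ∈ S}.ncard

/-- The number of the representations `n = p + x`, `p` prime, `x ∈ S`, `- M ≤ x < 0`. -/
noncomputable def RepNeg (n : ℤ) (M : ℕ) (S : Set ℤ) : ℕ :=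
  {p : ℕ | p.Prime ∧ n < p ∧ (p : ℤ) ≤ n + M ∧ (n - p : ℤ) ∈ S}.ncard

/-- The union of the five known cycles. -/
def Known : Finset ℤ := {1, 4, 2, -1, -2, -5, -14, -7, -20, -10, -17, -50, -25, -74, -37, -110,
  -55, -164, -82, -41, -122, -61, -182, -91, -272, -136, -68, -34, 0}

/-- The trajectory of `x` reaches one of the five known cycles. -/
def Reaches (x : ℤ) : Prop := ∃ k : ℕ, C^[k] x ∈ Known

open Pool.Agent.TH204.CP Pool.Agent.H499R2.ND

theorem inv1 {S : Set ℤ} (hS : Invariant S) : ∀ x, x ∈ S ↔ Pool.Agent.H499R2.CO.Tz 1 x ∈ S := by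
  have h : ∀ x : ℤ, x ∈ S ↔ Ci x ∈ S := hS
  exact Ci_inv h

theorem rep_eq (n : ℕ) (S : Set ℤ) : QS (PS 1 S) n n = (Rep n S : ℝ) := by
  rw [QS_eq]
  unfold Rep PS
  simp only [one_mul]

theorem repNeg_eq (n : ℤ) (M : ℕ) (S : Set ℤ) : QD (PS (-1) S) n M = (RepNeg n M S : ℝ) := by
  rw [QD_eq]
  unfold RepNeg PS
  congr 2
  ext p
  simp only [Set.mem_ofPred_eq]
  rw [show -1 * ((p : ℤ) - n) = n - p by ring]

theorem div_form {a c N ℓ ε : ℝ} (hℓ : 0 < ℓ) (h : |a * ℓ - c| ≤ ε * N) : |a - c / ℓ| ≤ ε * (N / ℓ) := by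
  have e : a - c / ℓ = (a * ℓ - c) / ℓ := by field_simp
  rw [e, abs_div, abs_of_pos hℓ, div_le_iff₀ hℓ]
  refine h.trans (le_of_eq ?_)
  field_simp

theorem main (k : ℕ) (ε : ℝ) (hε : 0 < ε) : ∃ N₀ : ℕ, ∀ S : Set ℤ, Invariant S → ∀ δ δ' : ℝ,
    HD 1 S δ → HD (-1) S δ' → ∀ N : ℕ, N₀ ≤ N →
      ∃ X : Finset ℤ, (X.card : ℝ) ≤ 3 * (N / Real.log N ^ k) ∧
        (∀ n : ℕ, N < n → n ≤ 2 * N → (n : ℤ) ∉ X →
          |(Rep n S : ℝ) - δ * n / Real.log n| ≤ ε * (n / Real.log n)) ∧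
        (∀ n : ℕ, 1 ≤ n → n ≤ N → (n : ℤ) ∉ X →
          |(RepNeg n N S : ℝ) - δ' * N / Real.log N| ≤ ε * (N / Real.log N)) ∧
        (∀ n : ℕ, n < N → (-n : ℤ) ∉ X →
          |(RepNeg (-n) (2 * N - 1) S : ℝ) - δ' * (2 * N - n) / Real.log N| ≤ ε * (N / Real.log N)) := by
  classical
  obtain ⟨N₀, hN₀⟩ := eventually_atTop.1 (
    (sumsS (Or.inl rfl) k ε hε).and ((diffs (Or.inr rfl) k ε hε).and
      ((diffsB (Or.inr rfl) k ε hε).and (Pool.Agent.W301.SS.ev_L 1))))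
  refine ⟨max N₀ 1, fun S hS δ δ' hδ hδ' N hN => ?_⟩
  obtain ⟨h2, h3, h4, h5⟩ := hN₀ N ((le_max_left _ _).trans hN)
  have hN1 : 1 ≤ N := (le_max_right _ _).trans hN
  have hℓ : 0 < Real.log (N : ℝ) := by linarith
  have hNr : (1 : ℝ) ≤ N := by exact_mod_cast hN1
  obtain ⟨X, hX1, hX2, hX3⟩ := h2 S (inv1 hS) δ hδ
  obtain ⟨Y, hY1, hY2, hY3⟩ := h3 S (inv1 hS) δ' hδ'
  obtain ⟨Z, hZ1, hZ2, hZ3⟩ := h4 S (inv1 hS) δ' hδ'
  refine ⟨X.image (fun n : ℕ => (n : ℤ)) ∪ (Y.image (fun n : ℕ => (n : ℤ)) ∪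
    Z.image (fun n : ℕ => -(n : ℤ))), ?_, ?_, ?_, ?_⟩
  · have c1 : ∀ W : Finset ℕ, (W.card : ℝ) * Real.log N ^ k ≤ N → (W.card : ℝ) ≤ N / Real.log N ^ k :=
      fun W hW => by rwa [le_div_iff₀ (by positivity)]
    have d1 := c1 X hX2
    have d2 := c1 Y hY2
    have d3 := c1 Z hZ2
    have u1 := Finset.card_union_le (X.image (fun n : ℕ => (n : ℤ))) (Y.image (fun n : ℕ => (n : ℤ)) ∪
      Z.image (fun n : ℕ => -(n : ℤ)))
    have u2 := Finset.card_union_le (Y.image (fun n : ℕ => (n : ℤ))) (Z.image (fun n : ℕ => -(n : ℤ)))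
    have i1 := Finset.card_image_le (s := X) (f := fun n : ℕ => (n : ℤ))
    have i2 := Finset.card_image_le (s := Y) (f := fun n : ℕ => (n : ℤ))
    have i3 := Finset.card_image_le (s := Z) (f := fun n : ℕ => -(n : ℤ))
    have u3 : (((X.image (fun n : ℕ => (n : ℤ)) ∪ (Y.image (fun n : ℕ => (n : ℤ)) ∪
      Z.image (fun n : ℕ => -(n : ℤ)))).card : ℕ) : ℝ) ≤ (X.card : ℝ) + (Y.card + Z.card) := by
      exact_mod_cast u1.trans (add_le_add i1 (u2.trans (add_le_add i2 i3)))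
    linarith
  · intro n hn1 hn2 hnX
    have hnX' : n ∉ X := fun h => hnX (Finset.mem_union_left _ (Finset.mem_image.2 ⟨n, h, rfl⟩))
    have g := hX3 n (Finset.mem_Ioc.2 ⟨hn1, hn2⟩) hnX'
    rw [rep_eq] at g
    have hnr : (N : ℝ) ≤ n := by exact_mod_cast hn1.le
    have hln : Real.log (N : ℝ) ≤ Real.log n := Real.log_le_log (by linarith) hnr
    exact div_form (by linarith) g
  · intro n hn1 hn2 hnX
    have hnY : n ∉ Y := fun h => hnX (Finset.mem_union_right _ (Finset.mem_union_left _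
      (Finset.mem_image.2 ⟨n, h, rfl⟩)))
    have g := hY3 n (Finset.mem_Icc.2 ⟨hn1, hn2⟩) hnY
    rw [repNeg_eq] at g
    exact div_form hℓ g
  · intro n hn hnX
    have hnZ : n ∉ Z := fun h => hnX (Finset.mem_union_right _ (Finset.mem_union_right _
      (Finset.mem_image.2 ⟨n, h, rfl⟩)))
    have g := hZ3 n (Finset.mem_range.2 hn) hnZ
    rw [repNeg_eq] at g
    exact div_form hℓ g

/-- a point outside a small set -/
theorem pick {k : ℕ} {N : ℕ} {X : Finset ℤ} {F : ℕ → Prop} (h1 : (X.card : ℝ) ≤ 3 * (N / Real.log N ^ k))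
    (h2 : 3 * (N / Real.log N ^ k) < ({n : ℕ | F n}.ncard : ℝ)) : ∃ n : ℕ, F n ∧ (n : ℤ) ∉ X := by
  classical
  by_contra hno
  push Not at hno
  have h3 : {n : ℕ | F n} ⊆ ((X.image (fun z : ℤ => z.toNat) : Finset ℕ) : Set ℕ) := by
    intro n hn
    rw [Finset.mem_coe, Finset.mem_image]
    exact ⟨n, hno n hn, by simp⟩
  have h4 := Set.ncard_le_ncard h3 (Finset.finite_toSet _)
  rw [Set.ncard_coe_finset] at h4
  have h5 : ({n : ℕ | F n}.ncard : ℝ) ≤ X.card := by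
    exact_mod_cast h4.trans Finset.card_image_le
  linarith

/-- Let `S` be a set of integers invariant under the Collatz map and its inverse (for example: the
basin of a cycle), with density `δ` among the positive and `δ'` among the negative integers. For all `k`,
`ε` and all `N ≥ N₀ (k, ε)`, independent of `S`, and with at most `3 N / (log N) ^ k` exceptional
integers `n`, the number of the representations `n = p + x` with `p` prime and `x ∈ S` is

* `δ n / log n` up to `ε n / log n` if `N < n ≤ 2 N` and `x > 0`,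
* `δ' N / log N` up to `ε N / log N` if `1 ≤ n ≤ N` and `-N ≤ x < 0`,
* `δ' (2 N - |n|) / log N` up to `ε N / log N` if `-N < n ≤ 0` and `-2 N < x < 0`.

Consequently: if for some `k` and some `ψ N → 0` there are infinitely many `N` with more than
`3 N / (log N) ^ k` integers `N < n ≤ 2 N` for which at most `ψ N * N / log N` of the `n - p`, `p < n`
prime, do not reach the known cycles, and infinitely many `N` with more than `3 N / (log N) ^ k` integers
`1 ≤ n ≤ N` for which at most `ψ N * N / log N` of the `n - p`, `n < p ≤ n + N` prime, do not reach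
them, then all integers reach the known cycles. -/
theorem result :
    (∀ (k : ℕ) (ε : ℝ), 0 < ε → ∃ N₀ : ℕ, ∀ S : Set ℤ, Invariant S → ∃ δ δ' : ℝ,
      HasDensity 1 S δ ∧ HasDensity (-1) S δ' ∧ (0 < δ ↔ ∃ x ∈ S, 0 < x) ∧ (0 < δ' ↔ ∃ x ∈ S, x < 0) ∧
      ∀ N : ℕ, N₀ ≤ N → ∃ X : Finset ℤ, (X.card : ℝ) ≤ 3 * (N / Real.log N ^ k) ∧
        (∀ n : ℕ, N < n → n ≤ 2 * N → (n : ℤ) ∉ X →
          |(Rep n S : ℝ) - δ * n / Real.log n| ≤ ε * (n / Real.log n)) ∧
        (∀ n : ℕ, 1 ≤ n → n ≤ N → (n : ℤ) ∉ X →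
          |(RepNeg n N S : ℝ) - δ' * N / Real.log N| ≤ ε * (N / Real.log N)) ∧
        (∀ n : ℕ, n < N → (-n : ℤ) ∉ X →
          |(RepNeg (-n) (2 * N - 1) S : ℝ) - δ' * (2 * N - n) / Real.log N| ≤ ε * (N / Real.log N))) ∧
    ∀ (k : ℕ) (ψ : ℕ → ℝ), Tendsto ψ atTop (𝓝 0) →
      (∃ᶠ N : ℕ in atTop, 3 * (N / Real.log N ^ k) < ({n : ℕ | N < n ∧ n ≤ 2 * N ∧
          (Rep n {x | ¬ Reaches x} : ℝ) ≤ ψ N * (N / Real.log N)}.ncard : ℝ)) →
      (∃ᶠ N : ℕ in atTop, 3 * (N / Real.log N ^ k) < ({n : ℕ | 1 ≤ n ∧ n ≤ N ∧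
          (RepNeg n N {x | ¬ Reaches x} : ℝ) ≤ ψ N * (N / Real.log N)}.ncard : ℝ)) →
      ∀ x : ℤ, Reaches x := by
  have posiff : ∀ {S : Set ℤ} (_ : Invariant S) {s : ℤ} (hs : s = 1 ∨ s = -1) {l : ℝ} (_ : HD s S l)
      (_ : 0 ≤ l), 0 < l ↔ ∃ x ∈ S, 0 < s * x := by
    intro S hS s hs l hl hl0
    constructor
    · intro h
      by_contra hcon
      push Not at hcon
      have := one_eq_zero hs (S := S) (fun a ha h0 => absurd h0 (not_lt.2 (hcon a ha))) hl
      linarith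
    · rintro ⟨x, hx, hx0⟩
      exact Pool.Agent.H499R2.ND.one_pos hs (Ci_inv hS) hx hx0 hl
  constructor
  · intro k ε hε
    obtain ⟨N₀, hN₀⟩ := main k ε hε
    refine ⟨N₀, fun S hS => ?_⟩
    obtain ⟨δ, hδ0, _, hδ⟩ := dens_side odd_one isCoprime_one_left (Or.inl rfl : (1 : ℤ) = 1 ∨ _) (Ci_inv hS)
    obtain ⟨δ', hδ0', _, hδ'⟩ := dens_side odd_one isCoprime_one_left (Or.inr rfl : (-1 : ℤ) = 1 ∨ _) (Ci_inv hS)
    refine ⟨δ, δ', HD_ncard (Or.inl rfl) hδ, HD_ncard (Or.inr rfl) hδ', ?_, ?_, hN₀ S hS δ δ' hδ hδ'⟩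
    · rw [posiff hS (Or.inl rfl) hδ hδ0]
      simp only [one_mul]
    · rw [posiff hS (Or.inr rfl) hδ' hδ0']
      simp only [neg_mul, one_mul, Left.neg_pos_iff]
  · intro k ψ hψ hf1 hf2
    have hinv : Invariant {x | ¬ Reaches x} := by
      intro x
      simp only [Set.mem_ofPred_eq]
      apply not_congr
      constructor
      · rintro ⟨j, hj⟩
        rcases j with _ | j
        · refine ⟨0, ?_⟩
          have h1 : x ∈ Known := hj
          have h2 : ∀ y ∈ Known, C y ∈ Known := by decide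
          exact h2 x h1
        · exact ⟨j, by rwa [Function.iterate_succ_apply] at hj⟩
      · rintro ⟨j, hj⟩
        exact ⟨j + 1, by rwa [Function.iterate_succ_apply]⟩
    obtain ⟨δ, hδ0, _, hδ⟩ := dens_side odd_one isCoprime_one_left (Or.inl rfl : (1 : ℤ) = 1 ∨ _) (Ci_inv hinv)
    obtain ⟨δ', hδ0', _, hδ'⟩ := dens_side odd_one isCoprime_one_left (Or.inr rfl : (-1 : ℤ) = 1 ∨ _) (Ci_inv hinv)
    have key1 : δ ≤ 0 := by
      by_contra hcon
      push Not at hcon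
      obtain ⟨N₀, hN₀⟩ := main k (δ / 4) (by positivity)
      have hev : ∀ᶠ N : ℕ in atTop, N₀ ≤ N ∧ 1 ≤ N ∧ ψ N < δ / 8 ∧ 1 ≤ Real.log (N : ℝ) := by
        filter_upwards [eventually_ge_atTop N₀, eventually_ge_atTop 1,
          hψ.eventually (gt_mem_nhds (by positivity : (0 : ℝ) < δ / 8)),
          Pool.Agent.W301.SS.ev_L 1] with N a1 a2 a3 a4
        exact ⟨a1, a2, a3, a4⟩
      obtain ⟨N, hN, a1, a2, a3, a4⟩ := (hf1.and_eventually hev).exists
      obtain ⟨X, hX1, hX2, _, _⟩ := hN₀ _ hinv δ δ' hδ hδ' N a1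
      obtain ⟨n, ⟨b1, b2, b3⟩, b4⟩ := pick (F := fun n : ℕ => N < n ∧ n ≤ 2 * N ∧
          (Rep n {x | ¬ Reaches x} : ℝ) ≤ ψ N * (N / Real.log N)) hX1 hN
      have g := (abs_le.1 (hX2 n b1 b2 b4)).1
      have hNr : (1 : ℝ) ≤ N := by exact_mod_cast a2
      have hnr : (N : ℝ) ≤ n := by exact_mod_cast b1.le
      have hln : Real.log (N : ℝ) ≤ Real.log n := Real.log_le_log (by linarith) hnr
      have hln2 : Real.log (n : ℝ) ≤ 2 * Real.log N := by
        have h1 : (n : ℝ) ≤ 2 * N := by exact_mod_cast b2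
        have h2 := Real.log_le_log (by linarith) h1
        rw [Real.log_mul (by norm_num) (by linarith)] at h2
        have := Real.log_two_lt_d9
        linarith
      have hq : (N : ℝ) / Real.log N ≤ 2 * (n / Real.log n) := by
        rw [mul_div_assoc', div_le_div_iff₀ (by linarith) (by linarith)]
        calc (N : ℝ) * Real.log n ≤ n * (2 * Real.log N) := by
              apply mul_le_mul hnr hln2 (by linarith) (by linarith)
          _ = _ := by ring
      have hq0 : 0 < (N : ℝ) / Real.log N := by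
        apply div_pos <;> linarith
      have g2 : ψ N * ((N : ℝ) / Real.log N) ≤ δ / 8 * (N / Real.log N) := by gcongr
      have e : δ * (n : ℝ) / Real.log n = δ * (n / Real.log n) := by ring
      rw [e] at g
      nlinarith
    have key2 : δ' ≤ 0 := by
      by_contra hcon
      push Not at hcon
      obtain ⟨N₀, hN₀⟩ := main k (δ' / 4) (by positivity)
      have hev : ∀ᶠ N : ℕ in atTop, N₀ ≤ N ∧ 1 ≤ N ∧ ψ N < δ' / 4 ∧ 1 ≤ Real.log (N : ℝ) := by
        filter_upwards [eventually_ge_atTop N₀, eventually_ge_atTop 1,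
          hψ.eventually (gt_mem_nhds (by positivity : (0 : ℝ) < δ' / 4)),
          Pool.Agent.W301.SS.ev_L 1] with N a1 a2 a3 a4
        exact ⟨a1, a2, a3, a4⟩
      obtain ⟨N, hN, a1, a2, a3, a4⟩ := (hf2.and_eventually hev).exists
      obtain ⟨X, hX1, _, hX2, _⟩ := hN₀ _ hinv δ δ' hδ hδ' N a1
      obtain ⟨n, ⟨b1, b2, b3⟩, b4⟩ := pick (F := fun n : ℕ => 1 ≤ n ∧ n ≤ N ∧
          (RepNeg n N {x | ¬ Reaches x} : ℝ) ≤ ψ N * (N / Real.log N)) hX1 hN
      have g := (abs_le.1 (hX2 n b1 b2 b4)).1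
      have hNr : (1 : ℝ) ≤ N := by exact_mod_cast a2
      have hq0 : 0 < (N : ℝ) / Real.log N := by
        apply div_pos <;> linarith
      have g2 : ψ N * ((N : ℝ) / Real.log N) ≤ δ' / 4 * (N / Real.log N) := by gcongr
      have e : δ' * (N : ℝ) / Real.log N = δ' * (N / Real.log N) := by ring
      rw [e] at g
      nlinarith
    intro x
    by_contra hx
    rcases lt_trichotomy x 0 with h | h | h
    · exact absurd ((posiff hinv (Or.inr rfl) hδ' hδ0').2 ⟨x, hx, by omega⟩) (not_lt.2 key2)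
    · apply hx
      subst h
      exact ⟨0, by decide⟩
    · exact absurd ((posiff hinv (Or.inl rfl) hδ hδ0).2 ⟨x, hx, by omega⟩) (not_lt.2 key1)

end Pool.Agent.Results.MP_d02c56_nt.SumsWithPrimes
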