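import Mathlib
import Pool.Agent.TH932.S2.G.Col2

set_option autoImplicit false

/-!
# Block complexity of the parity sequences of the Collatz map, and descent in logarithmic time
-/

namespace Pool.Agent.Results.MP_d02c56_nt.SuperlinearDescent

open Filter Topology Pool.Agent.TH932.S2

/-- the Collatz map on the integers -/
def C (x : ℤ) : ℤ := if x % 2 = 0 then x / 2 else 3 * x + 1

/-- the number of different blocks of `n` consecutive parities among the first `H` terms of the
trajectory of `x` -/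
noncomputable def blocksUpTo (x : ℤ) (H n : ℕ) : ℕ :=
  ((fun i : ℕ => fun j : Fin n => ((C^[i + j] x : ℤ) : ZMod 2)) '' {i | i + n ≤ H}).ncard

/-- the number of different blocks of `n` consecutive parities in the trajectory of `x` -/
noncomputable def blocks (x : ℤ) (n : ℕ) : ℕ :=
  (Set.range (fun i : ℕ => fun j : Fin n => ((C^[i + j] x : ℤ) : ZMod 2))).ncard

lemma blocksUpTo_le (x : ℤ) (H n : ℕ) : blocksUpTo x H n ≤ blocks x n := by
  unfold blocksUpTo blocks
  exact Set.ncard_le_ncard (Set.image_subset_range _ _) (Set.toFinite _)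

/-- **Result.**

(1) If the trajectory of `x` under the Collatz map is unbounded, then `p (n) / n` tends to
infinity, where `p (n)` is the number of different blocks of `n` consecutive parities in it.

(2) For every `A` there is `K` such that, for all `N ≥ K` and `|x| ≤ 2 ^ N`: if at most `A N`
different blocks of `N` consecutive parities occur among the first `N ^ K` terms of the trajectory
of `x`, then the trajectory reaches, after at most `N ^ K` steps, a cycle of length at most
`N ^ K`, and all its terms have absolute value at most `2 ^ (K N)`.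

(3) For every `A` there is `K` such that, for all integers `x` and `1 ≤ M ≤ N` with `|x| ≤ 2 ^ N`:
if for `M ≤ n ≤ K N` there are at most `A n` different blocks of `n` consecutive parities among
the first `K N` terms of the trajectory of `x`, then the trajectory reaches, after at most `K N`
steps, a cycle of length at most `K M` whose elements have absolute value at most `2 ^ (K M)`.

(4) For all `A` and `R` there is `K` such that for every integer `x` with `|x| > K`: either the
trajectory of `x` reaches, after at most `K log |x|` steps, a cycle of length at most `K` inside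
`[-K, K]`, or there is an interval `[m, R m]` with `m ≥ R` and `R m ≤ log |x|` such that for all
integers `N` in it more than `A N` different blocks of `N` consecutive parities occur among the
first `K log |x|` terms of the trajectory of `x`. -/
theorem result :
    (∀ x : ℤ, (∀ R : ℤ, ∃ k, R < |C^[k] x|) →
      Tendsto (fun n : ℕ => (blocks x n : ℝ) / n) atTop atTop) ∧
    (∀ A : ℝ, ∃ K : ℕ, ∀ (x : ℤ) (N : ℕ), K ≤ N → |x| ≤ 2 ^ N →
      (blocksUpTo x (N ^ K) N : ℝ) ≤ A * N →
      (∃ i ≤ N ^ K, ∃ k, 1 ≤ k ∧ k ≤ N ^ K ∧ C^[k] (C^[i] x) = C^[i] x) ∧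
        ∀ j, |C^[j] x| ≤ 2 ^ (K * N)) ∧
    (∀ A : ℝ, ∃ K : ℕ, ∀ (x : ℤ) (M N : ℕ), 1 ≤ M → M ≤ N → |x| ≤ 2 ^ N →
      (∀ n : ℕ, M ≤ n → n ≤ K * N → (blocksUpTo x (K * N) n : ℝ) ≤ A * n) →
      ∃ i ≤ K * N, (∃ k, 1 ≤ k ∧ k ≤ K * M ∧ C^[k] (C^[i] x) = C^[i] x) ∧
        ∀ j, |C^[j] (C^[i] x)| ≤ 2 ^ (K * M)) ∧
    (∀ A R : ℝ, ∃ K : ℕ, ∀ x : ℤ, (K : ℤ) < |x| →
      (∃ i : ℕ, (i : ℝ) ≤ K * Real.log |(x : ℝ)| ∧
        (∃ k, 1 ≤ k ∧ k ≤ K ∧ C^[k] (C^[i] x) = C^[i] x) ∧ ∀ j, |C^[j] (C^[i] x)| ≤ K) ∨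
      (∃ m : ℕ, 1 ≤ m ∧ R ≤ m ∧ R * m ≤ Real.log |(x : ℝ)| ∧
        ∀ N : ℕ, m ≤ N → (N : ℝ) ≤ R * m →
          A * N < blocksUpTo x ⌊K * Real.log |(x : ℝ)|⌋₊ N)) := by
  refine ⟨fun x hx => ?_, G.Col.one_scale, G.Col.all_scales, G.Col.dichotomy⟩
  rw [tendsto_atTop]
  intro A
  obtain ⟨K, hK⟩ := G.Col.one_scale A
  obtain ⟨n0, hn0⟩ : ∃ n0 : ℕ, |x| ≤ 2 ^ n0 := by
    refine ⟨x.natAbs, ?_⟩
    have h1 : x.natAbs < 2 ^ x.natAbs := Nat.lt_two_pow_self
    have h2 : |x| = (x.natAbs : ℤ) := Int.abs_eq_natAbs x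
    rw [h2]
    exact_mod_cast h1.le
  filter_upwards [eventually_ge_atTop K, eventually_ge_atTop n0, eventually_gt_atTop 0]
    with N h1 h2 h3
  have hN : (0 : ℝ) < N := by exact_mod_cast h3
  rw [le_div_iff₀ hN]
  by_contra hcon
  push Not at hcon
  have h4 : (blocksUpTo x (N ^ K) N : ℝ) ≤ A * N := by
    have : (blocksUpTo x (N ^ K) N : ℝ) ≤ blocks x N := by exact_mod_cast blocksUpTo_le x _ N
    linarith
  obtain ⟨_, h5⟩ := hK x N h1 (hn0.trans (pow_le_pow_right₀ (by norm_num) h2)) h4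
  obtain ⟨k, hk⟩ := hx (2 ^ (K * N))
  have h6 : |C^[k] x| ≤ 2 ^ (K * N) := h5 k
  omega

end Pool.Agent.Results.MP_d02c56_nt.SuperlinearDescent
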