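import Mathlib
import Pool.Agent.H499R2.NDClass2
import Pool.Agent.TH204.CP.Collatz4

set_option autoImplicit false

namespace Pool.Agent.Results.MP_d02c56_nt.TwoPrimes

open Filter Topology

/-- The Collatz map on the integers. -/
def C (x : ℤ) : ℤ := if x % 2 = 0 then x / 2 else 3 * x + 1

/-- `S` is invariant under the Collatz map and its inverse. -/
def Invariant (S : Set ℤ) : Prop := ∀ x : ℤ, x ∈ S ↔ C x ∈ S

/-- Among the integers of sign `s` the set `S` has natural density `δ`. -/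
def HasDensity (s : ℤ) (S : Set ℤ) (δ : ℝ) : Prop :=
  Tendsto (fun N : ℕ => ({n : ℤ | 0 < s * n ∧ s * n ≤ N ∧ n ∈ S}.ncard : ℝ) / N) atTop (𝓝 δ)

/-- The number of the pairs of primes `p`, `q` with `p + q < n` and `s (n - p - q) ∈ S`, that is, the
number of the representations `n = p + q + |x|` with an `x ∈ S` of sign `s`. -/
noncomputable def Rep (s : ℤ) (n : ℕ) (S : Set ℤ) : ℕ :=
  {z : ℕ × ℕ | z.1.Prime ∧ z.2.Prime ∧ z.1 + z.2 < n ∧ s * (n - z.1 - z.2 : ℤ) ∈ S}.ncard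

/-- The union of the five known cycles. -/
def Known : Finset ℤ := {1, 4, 2, -1, -2, -5, -14, -7, -20, -10, -17, -50, -25, -74, -37, -110,
  -55, -164, -82, -41, -122, -61, -182, -91, -272, -136, -68, -34, 0}

/-- The trajectory of `x` reaches one of the five known cycles. -/
def Reaches (x : ℤ) : Prop := ∃ k : ℕ, C^[k] x ∈ Known

open Pool.Agent.TH204.CP Pool.Agent.H499R2.ND

theorem inv1 {S : Set ℤ} (hS : Invariant S) : ∀ x, x ∈ S ↔ Pool.Agent.H499R2.CO.Tz 1 x ∈ S := by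
  have h : ∀ x : ℤ, x ∈ S ↔ Ci x ∈ S := hS
  exact Ci_inv h

theorem rep_eq (s : ℤ) (n : ℕ) (S : Set ℤ) : TT3 (PS s S) n = (Rep s n S : ℝ) := by
  rw [TT3_eq]
  rfl

theorem div_form {a c N ℓ ε : ℝ} (hℓ : 0 < ℓ) (h : |a * ℓ - c| ≤ ε * N) : |a - c / ℓ| ≤ ε * (N / ℓ) := by
  have e : a - c / ℓ = (a * ℓ - c) / ℓ := by field_simp
  rw [e, abs_div, abs_of_pos hℓ, div_le_iff₀ hℓ]
  refine h.trans (le_of_eq ?_)
  field_simp

theorem main {s : ℤ} (hs : s = 1 ∨ s = -1) (ε : ℝ) (hε : 0 < ε) : ∃ N₀ : ℕ, ∀ S : Set ℤ, Invariant S →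
    ∀ δ : ℝ, HD s S δ → ∀ n : ℕ, N₀ ≤ n →
      |(Rep s n S : ℝ) - δ * n ^ 2 / (2 * Real.log n ^ 2)| ≤ ε * (n ^ 2 / Real.log n ^ 2) := by
  obtain ⟨N₀, hN₀⟩ := eventually_atTop.1 ((ternS hs ε hε).and (Pool.Agent.W301.SS.ev_L 1))
  refine ⟨N₀, fun S hS δ hδ N hN => ?_⟩
  obtain ⟨h1, h5⟩ := hN₀ N hN
  have hℓ : 0 < Real.log (N : ℝ) := by linarith
  have g1 := h1 S (inv1 hS) δ hδ
  rw [rep_eq] at g1
  have e : δ * (N : ℝ) ^ 2 / (2 * Real.log N ^ 2) = (δ * N ^ 2 / 2) / Real.log N ^ 2 := by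
    field_simp
  rw [e]
  exact div_form (by positivity) g1

theorem posiff {S : Set ℤ} (hS : Invariant S) {s : ℤ} (hs : s = 1 ∨ s = -1) {l : ℝ} (hl : HD s S l)
    (hl0 : 0 ≤ l) : 0 < l ↔ ∃ x ∈ S, 0 < s * x := by
  constructor
  · intro h
    by_contra hcon
    push Not at hcon
    have := one_eq_zero hs (S := S) (fun a ha h0 => absurd h0 (not_lt.2 (hcon a ha))) hl
    linarith
  · rintro ⟨x, hx, hx0⟩
    exact Pool.Agent.H499R2.ND.one_pos hs (Ci_inv hS) hx hx0 hl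

/-- Let `s = 1` or `s = -1` and let `S` be a set of integers invariant under the Collatz map and its
inverse (for example: the basin of a cycle), of density `δ` among the integers of sign `s`. For `n → ∞`
the number of the representations `n = p + q + |x|` with primes `p`, `q` and an `x ∈ S` of sign `s` is
`(δ / 2 + o(1)) n ^ 2 / (log n) ^ 2`, uniformly in `S`. So if `S` contains an integer of sign `s`, every
large `n` is a sum of two primes and the absolute value of an element of `S` of sign `s`. And if for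
`s = 1` and for `s = -1` there are infinitely many `n` such that `s (n - p - q)` does not reach the known
cycles for at most `ψ n * n ^ 2 / (log n) ^ 2` pairs of primes with `p + q < n`, where `ψ n → 0`, then
all integers reach the known cycles. -/
theorem result :
    (∀ s : ℤ, (s = 1 ∨ s = -1) →
      (∀ ε : ℝ, 0 < ε → ∃ N₀ : ℕ, ∀ S : Set ℤ, Invariant S → ∃ δ : ℝ, HasDensity s S δ ∧
        (0 < δ ↔ ∃ x ∈ S, 0 < s * x) ∧ ∀ n : ℕ, N₀ ≤ n →
        |(Rep s n S : ℝ) - δ * n ^ 2 / (2 * Real.log n ^ 2)| ≤ ε * (n ^ 2 / Real.log n ^ 2)) ∧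
      (∀ S : Set ℤ, Invariant S → (∃ x ∈ S, 0 < s * x) → ∃ N₀ : ℕ, ∀ n : ℕ, N₀ ≤ n →
        ∃ p q : ℕ, ∃ x : ℤ, p.Prime ∧ q.Prime ∧ x ∈ S ∧ 0 < s * x ∧ (p : ℤ) + q + s * x = n)) ∧
    ∀ ψ : ℕ → ℝ, Tendsto ψ atTop (𝓝 0) →
      (∀ s : ℤ, (s = 1 ∨ s = -1) → ∃ᶠ n : ℕ in atTop,
        (Rep s n {x | ¬ Reaches x} : ℝ) ≤ ψ n * (n ^ 2 / Real.log n ^ 2)) →
      ∀ x : ℤ, Reaches x := by
  have first : ∀ s : ℤ, (s = 1 ∨ s = -1) →
      (∀ ε : ℝ, 0 < ε → ∃ N₀ : ℕ, ∀ S : Set ℤ, Invariant S → ∃ δ : ℝ, HasDensity s S δ ∧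
        (0 < δ ↔ ∃ x ∈ S, 0 < s * x) ∧ ∀ n : ℕ, N₀ ≤ n →
        |(Rep s n S : ℝ) - δ * n ^ 2 / (2 * Real.log n ^ 2)| ≤ ε * (n ^ 2 / Real.log n ^ 2)) := by
    intro s hs ε hε
    obtain ⟨N₀, hN₀⟩ := main hs ε hε
    refine ⟨N₀, fun S hS => ?_⟩
    obtain ⟨δ, hδ0, _, hδ⟩ := dens_side odd_one isCoprime_one_left hs (Ci_inv hS)
    exact ⟨δ, HD_ncard hs hδ, posiff hS hs hδ hδ0, hN₀ S hS δ hδ⟩
  have lowb : ∀ s : ℤ, (s = 1 ∨ s = -1) → ∀ S : Set ℤ, Invariant S → (∃ x ∈ S, 0 < s * x) →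
      ∃ c : ℝ, 0 < c ∧ ∀ᶠ n : ℕ in atTop, 1 ≤ n ∧ 1 ≤ Real.log (n : ℝ) ∧
        c * (n ^ 2 / Real.log n ^ 2) ≤ (Rep s n S : ℝ) := by
    intro s hs S hS hx
    obtain ⟨δ, hδ0, _, hδ⟩ := dens_side odd_one isCoprime_one_left hs (Ci_inv hS)
    have hδp := (posiff hS hs hδ hδ0).2 hx
    obtain ⟨N₀, hN₀⟩ := main hs (δ / 4) (by positivity)
    refine ⟨δ / 4, by positivity, ?_⟩
    filter_upwards [eventually_ge_atTop N₀, eventually_ge_atTop 1, Pool.Agent.W301.SS.ev_L 1] with n h1 h2 h3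
    refine ⟨h2, h3, ?_⟩
    have g := (abs_le.1 (hN₀ S hS δ hδ n h1)).1
    have e : δ * (n : ℝ) ^ 2 / (2 * Real.log n ^ 2) = δ / 2 * (n ^ 2 / Real.log n ^ 2) := by
      field_simp
    rw [e] at g
    linarith
  refine ⟨fun s hs => ⟨first s hs, fun S hS hx => ?_⟩, fun ψ hψ hf => ?_⟩
  · obtain ⟨c, hc, hev⟩ := lowb s hs S hS hx
    obtain ⟨N₀, hN₀⟩ := eventually_atTop.1 hev
    refine ⟨N₀, fun n hn => ?_⟩
    obtain ⟨h1, h2, h3⟩ := hN₀ n hn
    have hnr : (1 : ℝ) ≤ n := by exact_mod_cast h1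
    have hpos : 0 < (Rep s n S : ℝ) := lt_of_lt_of_le (by positivity) h3
    have hpos' : 0 < Rep s n S := by exact_mod_cast hpos
    unfold Rep at hpos'
    rw [Set.ncard_pos ((Set.finite_Iio (n, n) |>.subset (fun z hz => by
      obtain ⟨_, _, h, _⟩ := hz
      rw [Set.mem_Iio, Prod.lt_iff]
      exact Or.inl ⟨by simp only; omega, by simp only; omega⟩)) : Set.Finite _)] at hpos'
    obtain ⟨⟨p, q⟩, hp, hq, hpq, hxS⟩ := hpos'
    have hss : s * s = 1 := by rcases hs with rfl | rfl <;> norm_num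
    simp only at hp hq hpq hxS
    refine ⟨p, q, s * ((n : ℤ) - p - q), hp, hq, hxS, ?_, ?_⟩
    · rw [← mul_assoc, hss, one_mul]; omega
    · rw [← mul_assoc, hss, one_mul]; ring
  · have hinv : Invariant {x | ¬ Reaches x} := by
      intro x
      simp only [Set.mem_ofPred_eq]
      apply not_congr
      constructor
      · rintro ⟨j, hj⟩
        rcases j with _ | j
        · refine ⟨0, ?_⟩
          have h1 : x ∈ Known := hj
          have h2 : ∀ y ∈ Known, C y ∈ Known := by decide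
          exact h2 x h1
        · exact ⟨j, by rwa [Function.iterate_succ_apply] at hj⟩
      · rintro ⟨j, hj⟩
        exact ⟨j + 1, by rwa [Function.iterate_succ_apply]⟩
    have key : ∀ s : ℤ, (s = 1 ∨ s = -1) → ¬ ∃ x ∈ {x | ¬ Reaches x}, 0 < s * x := by
      intro s hs hx
      obtain ⟨c, hc, hev⟩ := lowb s hs _ hinv hx
      have hev2 := hψ.eventually (gt_mem_nhds hc)
      obtain ⟨n, hn, ⟨h1, h2, h3⟩, h4⟩ := ((hf s hs).and_eventually (hev.and hev2)).exists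
      have hnr : (1 : ℝ) ≤ n := by exact_mod_cast h1
      have hq : 0 < (n : ℝ) ^ 2 / Real.log n ^ 2 := by positivity
      have : ψ n * ((n : ℝ) ^ 2 / Real.log n ^ 2) < c * (n ^ 2 / Real.log n ^ 2) :=
        mul_lt_mul_of_pos_right h4 hq
      linarith
    intro x
    by_contra hx
    rcases lt_trichotomy x 0 with h | h | h
    · exact key (-1) (Or.inr rfl) ⟨x, hx, by omega⟩
    · apply hx
      subst h
      exact ⟨0, by decide⟩
    · exact key 1 (Or.inl rfl) ⟨x, hx, by omega⟩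

end Pool.Agent.Results.MP_d02c56_nt.TwoPrimes
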